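import Mathlib
import Pool.Agent.GQ.Defs
import Pool.Agent.GQ.Main

/-!
# Classification of the analytic Gaussian semigroups
-/

namespace Pool.Agent.Results.MP_7150bc_an.Classification

/-- For every parameter tuple `(Ω, κ, U, V, ζ)`, the semigroup `P` on `ℓ²(ℕ^d; ℂ)` generated by
the closure `G` of `-iH - ½ ∑ L_ℓ^* L_ℓ` is analytic if and only if every `z ∈ ℂ^d` with
`V̄ z + U z̄ = 0` satisfies `Ω z + κ z̄ = 0` and `Re ∑ ζ̄_j z_j = 0`. -/
theorem result (d : ℕ) (_hd : 1 ≤ d) (p : GQ.Param d) (P : GQ.C0Semigroup (GQ.Fock d))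
    (hP : p.Generates P) : P.IsAnalytic ↔ p.Cond :=
  GQ.isAnalytic_iff p P hP

end Pool.Agent.Results.MP_7150bc_an.Classification
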